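import Pool.Agent.Y290.PL.Defs

/-!
# Analytic projection after a change of variables in `BMO`: statements of the parts
-/

set_option autoImplicit false

namespace Pool.Agent.Y290.PL

open MeasureTheory Set
open scoped FourierTransform ENNReal ContDiff

/-- Fourier integrals with frequencies of one sign are in `BMOA`. -/
def S_HB : Prop :=
  (∀ (g : ℝ → ℂ) (N : ℝ), HP g N → IsBMOA g ∧ bmo g ≤ ENNReal.ofReal (2 * N)) ∧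
  ∀ (g : ℝ → ℂ) (N : ℝ), HM g N →
    IsBMOA (fun x => starRingEnd ℂ (g x)) ∧ IsBMO g ∧ bmo g ≤ ENNReal.ofReal (2 * N)

/-- Facts on the norm of `BMO`. -/
def S_BM : Prop :=
  (∀ f g : ℝ → ℂ, LocallyIntegrable f → LocallyIntegrable g →
    bmo (fun x => f x + g x) ≤ bmo f + bmo g) ∧
  (∀ f g : ℝ → ℂ, IsBMO f → IsBMO g → IsBMO (fun x => f x + g x)) ∧
  ∀ (f : ℝ → ℂ) (s : ℝ), bmo (fun x => f (x - s)) = bmo f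

/-- Closure properties of Fourier integrals with frequencies of one sign. -/
def S_HC : Prop :=
  (∀ g g' N N', HP g N → HP g' N' → HP (fun x => g x + g' x) (N + N')) ∧
  (∀ g g' N N', HM g N → HM g' N' → HM (fun x => g x + g' x) (N + N')) ∧
  (∀ g N, HM g N → HM (fun x => -g x) N) ∧
  (∀ g N (s : ℝ), HP g N → HP (fun x => g (x - s)) N) ∧
  (∀ g N (s : ℝ), HM g N → HM (fun x => g (x - s)) N) ∧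
  (∀ (g : ℕ → ℝ → ℂ) (N : ℕ → ℝ), (∀ j, HP (g j) (N j)) → Summable N →
    (∀ x, Summable fun j => g j x) ∧ HP (fun x => ∑' j, g j x) (∑' j, N j)) ∧
  ∀ (g : ℕ → ℝ → ℂ) (N : ℕ → ℝ), (∀ j, HM (g j) (N j)) → Summable N →
    (∀ x, Summable fun j => g j x) ∧ HM (fun x => ∑' j, g j x) (∑' j, N j)

/-- Facts on the parts of smooth functions. -/
def S_FB : Prop :=
  (∀ F, S01 F → Integrable (𝓕 F) ∧ (∀ x, F x = Pp F x + Pm F x) ∧ HP (Pp F) (NP F) ∧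
    HM (Pm F) (NM F) ∧ ContDiff ℝ ∞ (Pp F) ∧ ContDiff ℝ ∞ (Pm F) ∧
    (∀ x, ‖Pp F x‖ ≤ NP F) ∧ ∀ x, ‖Pm F x‖ ≤ NM F) ∧
  ∀ F G, S01 F → S01 G → (∀ x, Pp (fun y => F y + G y) x = Pp F x + Pp G x) ∧
    (∀ x, Pm (fun y => F y + G y) x = Pm F x + Pm G x) ∧
    NP (fun y => F y + G y) ≤ NP F + NP G ∧ NM (fun y => F y + G y) ≤ NM F + NM G

/-- The analytic projection maps bounded functions to `BMO`. -/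
def S_LI : Prop := ∃ C : ℝ, 0 ≤ C ∧ ∀ (F : ℝ → ℂ) (N : ℝ), S01 F → (∀ x, ‖F x‖ ≤ N) →
  bmo (Pp F) ≤ ENNReal.ofReal (C * N)

/-- Nonstationary phase: functions of negative frequency composed with a diffeomorphism. -/
def S_NSP : Prop := ∀ (h : ℝ → ℝ) (d B : ℝ → ℂ) (b : ℕ → ℂ), Dif h → S01 d → FB B b →
  ∀ ε : ℝ, 0 < ε → ∃ Λ : ℝ, ∀ lam, Λ ≤ lam → NP (fun x => d x * B (lam * h x)) ≤ ε

/-- Functions of high positive frequency. -/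
def S_AN : Prop := ∀ (δ A ψ : ℝ → ℂ) (a : ℕ → ℂ), S01 δ → FA A a → Continuous ψ →
  ∀ ε : ℝ, 0 < ε → ∃ Λ : ℝ, ∀ lam, Λ ≤ lam → NM (fun y => δ y * A (lam * y)) ≤ ε ∧
    ‖∫ y, δ y * A (lam * y) * ψ y‖ ≤ ε

/-- Inverse diffeomorphisms. -/
def S_INV : Prop := ∀ h, Dif h → ∃ k, Dif k ∧ (∀ x, k (h x) = x) ∧ ∀ x, h (k x) = x

/-- Equidistribution of the phase, uniformly over all intervals. -/
def S_EQ : Prop := ∀ (h g Θ : ℝ → ℝ), Dif h → ContDiff ℝ ∞ g → (∀ x, x ∉ Icc (0 : ℝ) 1 → g x = 0) →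
  Continuous Θ → (∀ t, Θ (t + 2 * Real.pi) = Θ t) →
  ∃ K : ℝ, ∀ lam : ℝ, 0 < lam → ∀ x y : ℝ, |(∫ t in x..y, g t * Θ (lam * h t)) -
    (1 / (2 * Real.pi) * ∫ t in (0 : ℝ)..2 * Real.pi, Θ t) * ∫ t in x..y, g t| ≤ K / lam

/-- The reverse Hölder inequality is preserved. -/
def S_RH : Prop := ∀ (φ κ : ℝ → ℝ) (β : ℝ), RD φ κ β → ∃ C₀ : ℝ, 0 < C₀ ∧
  (∀ ζ, Cut ζ → RH β C₀ (fun x => x) ζ) ∧
  ∀ (h ζ : ℝ → ℝ) (C η : ℝ), Dif h → Cut ζ → C₀ ≤ C → 0 < η → RH β C h ζ →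
    ∃ Λ : ℝ, 0 < Λ ∧ ∀ lam, Λ ≤ lam → Dif (nh h ζ φ lam) ∧ Cut (nz h ζ κ lam) ∧
      RH β (C + η) (nh h ζ φ lam) (nz h ζ κ lam)

/-- Gluing of diffeomorphisms. -/
def S_GLUE : Prop := ∀ (C : ℝ) (h : ℕ → ℝ → ℝ) (X : ℕ → ℝ), (∀ j, Dif (h j)) →
  (∀ j, RH 0 C (h j) (fun _ => 0)) → (∀ j, X j + 2 ≤ X (j + 1)) →
  ∃ H : ℝ → ℝ, InG H ∧ (∀ j, ∀ x ∈ Icc (X j) (X j + 1), H x = X j + h j (x - X j)) ∧
    ∀ x, (∀ j, x ∉ Icc (X j) (X j + 1)) → H x = x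

/-- The lower bound of the norm. -/
def S_LB : Prop := ∀ χ : ℝ → ℝ, Cut χ → (∃ x, χ x ≠ 0) → ∃ c ε : ℝ, 0 < c ∧ 0 < ε ∧
  ∀ F, S01 F → ‖∫ x, (F x - (χ x : ℂ)) * ((deriv χ x : ℝ) : ℂ)‖ ≤ ε →
    NM (fun x => F x - (χ x : ℂ)) ≤ ε → ENNReal.ofReal c ≤ bmo (Pp F)

/-- The influence of the other intervals. -/
def S_FAR : Prop := ∀ h, Dif h → ∃ K : ℝ, 0 ≤ K ∧ ∀ (F : ℝ → ℂ) (N s : ℝ), S01 F →
  (∀ x, ‖F x‖ ≤ N) → 2 ≤ |s| → S01 (fun x => Pp F (h x - s) - Pp F (x - s)) ∧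
    NP (fun x => Pp F (h x - s) - Pp F (x - s)) + NM (fun x => Pp F (h x - s) - Pp F (x - s)) ≤
      K * N / s ^ 2

/-- The game: a diffeomorphism `h` with uniform constants and a function `F` with almost only
positive frequencies such that `F ∘ h` has almost only negative frequencies. -/
def S_GAME : Prop := ∀ χ : ℝ → ℝ, Cut χ → ∃ C₀ C₁ : ℝ, ∀ ε : ℝ, 0 < ε →
  ∃ (h : ℝ → ℝ) (F G d E : ℝ → ℂ), Dif h ∧ RH 0 C₀ h (fun _ => 0) ∧ S01 F ∧ S01 G ∧ S01 d ∧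
    S01 E ∧ (∀ x, ‖F x‖ ≤ C₁) ∧ (∀ x, F (h x) = G x + d x + E x) ∧ NP G ≤ ε ∧
    NM (fun x => F x - (χ x : ℂ)) ≤ ε ∧
    ‖∫ x, (F x - (χ x : ℂ)) * ((deriv χ x : ℝ) : ℂ)‖ ≤ ε ∧ (∀ x, ‖d x‖ ≤ ε) ∧
    (∀ x, ‖E x‖ ≤ ε) ∧ ∀ x, |h x - x| ≤ ε

/-! ### the circle -/

/-- Fourier series of smooth periodic functions. -/
def S_FS : Prop :=
  (∀ Φ : ℝ → ℂ, ContDiff ℝ ∞ Φ → (∀ t, Φ (t + 2 * Real.pi) = Φ t) → ∃ c : ℤ → ℂ,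
    (∀ k : ℕ, Summable fun j : ℤ => |(j : ℝ)| ^ k * ‖c j‖) ∧ (∀ t, Φ t = ∑' j : ℤ, c j * ej j t) ∧
    ∀ j, c j = (1 / (2 * Real.pi) : ℝ) * ∫ t in (0 : ℝ)..2 * Real.pi, Φ t * ej (-j) t) ∧
  (∀ c : ℕ → ℂ, (∀ k : ℕ, Summable fun j : ℕ => (j : ℝ) ^ k * ‖c j‖) →
    ContDiff ℝ ∞ fun t : ℝ => ∑' j : ℕ, c j * ej j t) ∧
  ∀ c : ℕ → ℂ, (∀ k : ℕ, Summable fun j : ℕ => (j : ℝ) ^ k * ‖c j‖) →
    ContDiff ℝ ∞ fun t : ℝ => ∑' j : ℕ, c j * ej (-(j + 1)) t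

/-- Moebius transformations. -/
def S_MOB : Prop := ∀ r : ℝ, |r| < 1 → ContDiff ℝ ∞ (mob r) ∧
  (∀ t, mob r (t + 2 * Real.pi) = mob r t) ∧
  (∀ t, 1 + deriv (mob r) t = (1 - r ^ 2) / (1 + 2 * r * Real.cos t + r ^ 2)) ∧
  (∀ t, ej 1 (t + mob r t) = (ej 1 t + r) / (1 + r * ej 1 t)) ∧
  ∀ t, (t + mob r t) + mob (-r) (t + mob r t) = t

/-- Composition of analytic functions with Moebius transformations. -/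
def S_CMP : Prop := ∀ (r : ℝ), 0 < r → r < 1 → ∀ c : ℕ → ℂ,
  (∀ k : ℕ, Summable fun j : ℕ => (j : ℝ) ^ k * ‖c j‖) → ∑' j, c j * (-(r : ℂ)) ^ j = 0 →
  ∃ (A : ℝ → ℂ) (a : ℕ → ℂ), FA A a ∧ ∀ t, A (t + mob r t) = ∑' j : ℕ, c j * ej j t

/-- The numbers. -/
def S_NUM : Prop := ∃ (r : ℝ) (m κ : ℝ → ℝ), 0 < r ∧ r < 1 ∧ ContDiff ℝ ∞ m ∧ ContDiff ℝ ∞ κ ∧
  (∀ t, m (t + 2 * Real.pi) = m t) ∧ (∀ t, κ (t + 2 * Real.pi) = κ t) ∧ (∀ t, 0 ≤ m t) ∧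
  (∀ t, m t ≤ 1) ∧ (∀ t, 0 ≤ κ t) ∧ (∀ t, κ t ≤ 1) ∧ (∀ t, m t ≠ 0 → κ t = 1) ∧
  2 * Real.pi < ∫ t in (0 : ℝ)..2 * Real.pi, m t / Real.sqrt (1 + 2 * r * Real.cos t + r ^ 2) ∧
  ∫ t in (0 : ℝ)..2 * Real.pi, κ t < 2 * Real.pi ∧
  ∫ t in (0 : ℝ)..2 * Real.pi, κ t * ((1 - r ^ 2) / (1 + 2 * r * Real.cos t + r ^ 2)) ^ 2 <
    2 * Real.pi

/-- The data on the circle exist. -/
def S_CIRC : Prop := ∃ (φ κ : ℝ → ℝ) (A B M : ℝ → ℂ) (a b : ℕ → ℂ) (θ β : ℝ),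
  CD φ κ A B M a b θ β

end Pool.Agent.Y290.PL
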