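import Pool.Agent.Y290.PL.Norm
import Pool.Agent.Y257.PL.HB
import Pool.Agent.Y257.PL.NSP
import Pool.Agent.Y168.PL.Hc
import Pool.Agent.Y168.PL.An
import Pool.Agent.Y168.PL.Lb
import Pool.Agent.Y252.PL.FB
import Pool.Agent.Y481.PL.LI
import Pool.Agent.Y309.PL.Inv
import Pool.Agent.Y801.PL.RH
import Pool.Agent.Y801.PL.Glue
import Pool.Agent.Y562.PL.Far3
import Pool.Agent.Y769.PL.FS
import Pool.Agent.Y495.PL.Mob
import Pool.Agent.Y495.PL.Num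
import Pool.Agent.Y446.PL.Cmp
import Pool.Agent.Y417.PL.Circ

/-!
# Assembly of all parts
-/

set_option autoImplicit false

namespace Pool.Agent.Y290.PL

theorem a_CIRC : S_CIRC :=
  Pool.Agent.Y417.PL.t_CIRC Pool.Agent.Y769.PL.t_FS Pool.Agent.Y495.PL.t_MOB
    Pool.Agent.Y495.PL.t_NUM
    (Pool.Agent.Y446.PL.t_CMP Pool.Agent.Y769.PL.t_FS Pool.Agent.Y495.PL.t_MOB)

theorem a_GM : S_GM :=
  t_GM a_CIRC (Pool.Agent.Y801.PL.RHp.t_RH Pool.Agent.Y309.PL.t_EQ) Pool.Agent.Y257.PL.t_NSP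
    Pool.Agent.Y168.PL.t_AN Pool.Agent.Y309.PL.t_INV Pool.Agent.Y252.PL.FB.t_FB

/-- **The counterexample.** -/
theorem all : ∃ H : ℝ → ℝ, InG H ∧
    ∃ f g : ℕ → ℝ → ℂ, (∀ k, IsBMOA (f k) ∧ bmo (f k) = 1 ∧ IsProj (f k ∘ H) (g k)) ∧
      Filter.Tendsto (fun k => bmo (g k)) Filter.atTop (nhds 0) :=
  final_seq Pool.Agent.Y257.PL.t_HB Pool.Agent.Y168.PL.t_BM Pool.Agent.Y168.PL.t_HC
    Pool.Agent.Y252.PL.FB.t_FB Pool.Agent.Y481.PL.t_LI Pool.Agent.Y801.PL.Glue.t_GLUE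
    Pool.Agent.Y168.PL.t_LB (Pool.Agent.Y562.PL.t_FAR Pool.Agent.Y252.PL.FB.t_FB) a_GM

end Pool.Agent.Y290.PL
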