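import Mathlib

/-!
# Analytic projection after a change of variables in `BMO`: definitions
-/

set_option autoImplicit false

namespace Pool.Agent.Y290.PL

open MeasureTheory Set
open scoped FourierTransform ENNReal ContDiff

/-- the mean value of `f` on the interval from `a` to `b` -/
noncomputable def avg (f : ℝ → ℂ) (a b : ℝ) : ℂ := (∫ x in a..b, f x) / ((b - a : ℝ) : ℂ)

/-- the mean oscillation of `f` on the interval from `a` to `b` -/
noncomputable def osc (f : ℝ → ℂ) (a b : ℝ) : ℝ := (∫ x in a..b, ‖f x - avg f a b‖) / (b - a)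

/-- the norm of `BMO`: the supremum of the mean oscillations over all bounded intervals -/
noncomputable def bmo (f : ℝ → ℂ) : ℝ≥0∞ :=
  ⨆ (a : ℝ) (b : ℝ) (_ : a < b), ENNReal.ofReal (osc f a b)

/-- functions of bounded mean oscillation -/
def IsBMO (f : ℝ → ℂ) : Prop := LocallyIntegrable f ∧ bmo f < ⊤

/-- the Poisson extension to the upper half-plane -/
noncomputable def PE (f : ℝ → ℂ) (z : ℂ) : ℂ :=
  ∫ y : ℝ, ((z.im / (Real.pi * ((z.re - y) ^ 2 + z.im ^ 2)) : ℝ) : ℂ) * f y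

/-- `BMOA`: the functions in `BMO` whose Poisson extension is analytic in the upper half-plane -/
def IsBMOA (f : ℝ → ℂ) : Prop :=
  IsBMO f ∧ DifferentiableOn ℂ (PE f) {z : ℂ | 0 < z.im}

/-- `u` is (up to a constant) the analytic projection of `g`: `u` is in `BMOA` and `g - u` is the
complex conjugate of a function in `BMOA`. -/
def IsProj (g u : ℝ → ℂ) : Prop :=
  IsBMO g ∧ IsBMOA u ∧ IsBMOA (fun x => starRingEnd ℂ (g x - u x))

/-- the class `A^∞` of weights -/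
def AInf (w : ℝ → ℝ) : Prop :=
  ∃ C δ : ℝ, 0 < C ∧ 0 < δ ∧ ∀ a b : ℝ, a < b → ∀ E : Set ℝ, MeasurableSet E → E ⊆ Icc a b →
    ∫ x in E, w x ≤ C * (volume.real E / (b - a)) ^ δ * ∫ x in a..b, w x

/-- The group `G`: increasing homeomorphisms of the line onto itself which are locally absolutely
continuous, with derivative in `A^∞`. -/
structure InG (h : ℝ → ℝ) : Prop where
  mono : StrictMono h
  cont : Continuous h
  surj : Function.Surjective h
  ac : ∃ w : ℝ → ℝ, (∀ x, 0 ≤ w x) ∧ LocallyIntegrable w ∧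
    (∀ a b : ℝ, h b - h a = ∫ x in a..b, w x) ∧ AInf w

/-- Property (L): the analytic projection of `f ∘ h` is bounded below by `f`, for `f` in `BMOA`. -/
def PropL (h : ℝ → ℝ) : Prop :=
  ∃ c : ℝ, 0 < c ∧ ∀ f g : ℝ → ℂ, IsBMOA f → IsProj (f ∘ h) g → ENNReal.ofReal c * bmo f ≤ bmo g

/-! ### auxiliary notions -/

/-- smooth functions with support in the unit interval -/
structure S01 (F : ℝ → ℂ) : Prop where
  s : ContDiff ℝ ∞ F
  o : ∀ x, x ∉ Icc (0 : ℝ) 1 → F x = 0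

/-- smooth cutoff functions with support in the unit interval -/
structure Cut (ζ : ℝ → ℝ) : Prop where
  s : ContDiff ℝ ∞ ζ
  o : ∀ x, x ∉ Icc (0 : ℝ) 1 → ζ x = 0
  nn : ∀ x, 0 ≤ ζ x
  le : ∀ x, ζ x ≤ 1

/-- smooth diffeomorphisms of the line which are the identity outside of the unit interval -/
structure Dif (h : ℝ → ℝ) : Prop where
  s : ContDiff ℝ ∞ h
  d : ∀ x, 0 < deriv h x
  o : ∀ x, x ∉ Icc (0 : ℝ) 1 → h x = x

/-- the exponential `exp(2 π i x ξ)` -/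
noncomputable def ex (x ξ : ℝ) : ℂ := Complex.exp (((2 * Real.pi * x * ξ : ℝ) : ℂ) * Complex.I)

/-- the exponential `exp(i j t)` -/
noncomputable def ej (j : ℤ) (t : ℝ) : ℂ := Complex.exp (((j * t : ℝ) : ℂ) * Complex.I)

/-- the part with positive frequencies -/
noncomputable def Pp (F : ℝ → ℂ) (x : ℝ) : ℂ := ∫ ξ in Ioi (0 : ℝ), 𝓕 F ξ * ex x ξ

/-- the part with negative frequencies -/
noncomputable def Pm (F : ℝ → ℂ) (x : ℝ) : ℂ := ∫ ξ in Iic (0 : ℝ), 𝓕 F ξ * ex x ξ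

/-- size of the part with positive frequencies -/
noncomputable def NP (F : ℝ → ℂ) : ℝ := ∫ ξ in Ioi (0 : ℝ), ‖𝓕 F ξ‖

/-- size of the part with negative frequencies -/
noncomputable def NM (F : ℝ → ℂ) : ℝ := ∫ ξ in Iic (0 : ℝ), ‖𝓕 F ξ‖

/-- Fourier integrals with nonnegative frequencies -/
def HP (g : ℝ → ℂ) (N : ℝ) : Prop :=
  ∃ a : ℝ → ℂ, Integrable a ∧ (∀ ξ < 0, a ξ = 0) ∧ ∫ ξ, ‖a ξ‖ ≤ N ∧ ∀ x, g x = ∫ ξ, a ξ * ex x ξ

/-- Fourier integrals with nonpositive frequencies -/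
def HM (g : ℝ → ℂ) (N : ℝ) : Prop :=
  ∃ a : ℝ → ℂ, Integrable a ∧ (∀ ξ > 0, a ξ = 0) ∧ ∫ ξ, ‖a ξ‖ ≤ N ∧ ∀ x, g x = ∫ ξ, a ξ * ex x ξ

/-- the next diffeomorphism -/
noncomputable def nh (h ζ φ : ℝ → ℝ) (lam : ℝ) (x : ℝ) : ℝ := h x + lam⁻¹ * ζ x * φ (lam * h x)

/-- the next cutoff function -/
noncomputable def nz (h ζ κ : ℝ → ℝ) (lam : ℝ) (x : ℝ) : ℝ := ζ x * κ (lam * h x)

/-- reverse Hölder inequality with a potential -/
def RH (β C : ℝ) (h ζ : ℝ → ℝ) : Prop :=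
  ∀ x y : ℝ, x < y →
    (y - x) * ∫ t in x..y, (deriv h t) ^ 2 * (1 + β * ζ t) ≤ C * (h y - h x) ^ 2

/-- the real data on the circle -/
structure RD (φ κ : ℝ → ℝ) (β : ℝ) : Prop where
  φs : ContDiff ℝ ∞ φ
  κs : ContDiff ℝ ∞ κ
  φp : ∀ t, φ (t + 2 * Real.pi) = φ t
  κp : ∀ t, κ (t + 2 * Real.pi) = κ t
  φd : ∀ t, 0 < 1 + deriv φ t
  κ0 : ∀ t, 0 ≤ κ t
  κ1 : ∀ t, κ t ≤ 1
  β0 : 0 ≤ β
  pot : ∀ z ∈ Icc (0 : ℝ) 1, ∫ t in (0 : ℝ)..2 * Real.pi,
    (1 + z * deriv φ t) ^ 2 * (1 + β * z * κ t) ≤ 2 * Real.pi * (1 + β * z)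

/-- an absolutely convergent series with positive frequencies -/
structure FA (A : ℝ → ℂ) (a : ℕ → ℂ) : Prop where
  s : ContDiff ℝ ∞ A
  sa : Summable fun j => ‖a j‖
  eq : ∀ t, A t = ∑' j, a j * ej (j + 1) t

/-- an absolutely convergent series with negative frequencies -/
structure FB (B : ℝ → ℂ) (b : ℕ → ℂ) : Prop where
  s : ContDiff ℝ ∞ B
  sb : Summable fun j => ‖b j‖
  eq : ∀ t, B t = ∑' j, b j * ej (-(j + 1)) t

/-- the data on the circle -/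
structure CD (φ κ : ℝ → ℝ) (A B M : ℝ → ℂ) (a b : ℕ → ℂ) (θ β : ℝ) : Prop where
  rd : RD φ κ β
  fa : FA A a
  fb : FB B b
  Ms : ContDiff ℝ ∞ M
  κM : ∀ t, M t ≠ 0 → κ t = 1
  rel : ∀ t, A (t + φ t) + B t = M t - 1
  Mθ : ∀ t, ‖M t‖ ≤ θ
  θ0 : 0 < θ
  θ1 : θ < 1

/-- the angle of a Moebius transformation of the disc -/
noncomputable def mob (r t : ℝ) : ℝ := -2 * Real.arctan (r * Real.sin t / (1 + r * Real.cos t))

end Pool.Agent.Y290.PL
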