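import Pool.Agent.Y290.PL.Game2

/-!
# The final construction
-/

set_option autoImplicit false

namespace Pool.Agent.Y290.PL

open MeasureTheory Set
open scoped FourierTransform ENNReal ContDiff

theorem HP.mono {g : ℝ → ℂ} {N N' : ℝ} (h : HP g N) (hN : N ≤ N') : HP g N' := by
  obtain ⟨a, h1, h2, h3, h4⟩ := h
  exact ⟨a, h1, h2, h3.trans hN, h4⟩

theorem HM.mono {g : ℝ → ℂ} {N N' : ℝ} (h : HM g N) (hN : N ≤ N') : HM g N' := by
  obtain ⟨a, h1, h2, h3, h4⟩ := h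
  exact ⟨a, h1, h2, h3.trans hN, h4⟩

theorem HP.zero : HP (fun _ => 0) 0 :=
  ⟨fun _ => 0, integrable_zero _ _ _, fun _ _ => rfl, by simp, by simp⟩

theorem HM.zero : HM (fun _ => 0) 0 :=
  ⟨fun _ => 0, integrable_zero _ _ _, fun _ _ => rfl, by simp, by simp⟩

/-- a cutoff function supported in the middle half of the interval -/
theorem exists_bump : ∃ χ : ℝ → ℝ, Cut χ ∧ (∀ x, x ∉ Icc (1 / 4 : ℝ) (3 / 4) → χ x = 0) ∧
    ∃ x, χ x ≠ 0 := by
  let f : ContDiffBump (1 / 2 : ℝ) := ⟨1 / 8, 1 / 4, by norm_num, by norm_num⟩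
  have h0 : ∀ x, x ∉ Icc (1 / 4 : ℝ) (3 / 4) → f x = 0 := by
    intro x hx
    apply f.zero_of_le_dist
    change 1 / 4 ≤ dist x (1 / 2)
    rw [Real.dist_eq]
    rw [mem_Icc, not_and_or, not_le, not_le] at hx
    rcases hx with hx | hx
    · rw [abs_of_neg (by linarith)]; linarith
    · rw [abs_of_pos (by linarith)]; linarith
  refine ⟨f, ⟨f.contDiff, fun x hx => h0 x fun h => hx ?_, fun x => f.nonneg,
    fun x => f.le_one⟩, h0, 1 / 2, ?_⟩
  · exact ⟨by linarith [h.1], by linarith [h.2]⟩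
  · have h1 : f (1 / 2) = 1 := by
      apply f.one_of_mem_closedBall
      exact Metric.mem_closedBall_self (by change (0 : ℝ) ≤ 1 / 8; norm_num)
    rw [h1]
    exact one_ne_zero

/-- the main interval -/
theorem main_part (hHB : S_HB) (hBM : S_BM) (hHC : S_HC) (hFB : S_FB) (hLI : S_LI)
    {χ : ℝ → ℝ} (hχ : Cut χ) : ∃ C₂ : ℝ, 0 ≤ C₂ ∧
      ∀ (ε : ℝ) (h : ℝ → ℝ) (F G d E : ℝ → ℂ), 0 < ε → Dif h → S01 F → S01 G → S01 d → S01 E →
        (∀ x, F (h x) = G x + d x + E x) → NP G ≤ ε → NM (fun x => F x - (χ x : ℂ)) ≤ ε →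
        (∀ x, ‖d x‖ ≤ ε) → (∀ x, ‖E x‖ ≤ ε) → (∀ x, |h x - x| ≤ ε) →
        ∃ (u v : ℝ → ℂ) (N M : ℝ), HP u N ∧ HM v M ∧ (∀ x, Pp F (h x) = u x + v x) ∧
          bmo u ≤ ENNReal.ofReal (C₂ * ε) := by
  obtain ⟨C, hC, hLI⟩ := hLI
  have hχS := S01.ofCut hχ
  obtain ⟨-, -, -, -, -, hmS, -, -⟩ := hFB.1 _ hχS
  -- the Lipschitz constant
  obtain ⟨L, hL⟩ := isCompact_Icc.exists_bound_of_continuousOn (s := Icc (0 : ℝ) 1)
    (hmS.continuous_deriv (by simp)).continuousOn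
  have hL0 : 0 ≤ L := (norm_nonneg _).trans (hL 0 ⟨le_refl _, zero_le_one⟩)
  have hLip : ∀ x ∈ Icc (0 : ℝ) 1, ∀ y ∈ Icc (0 : ℝ) 1,
      ‖Pm (fun x => (χ x : ℂ)) y - Pm (fun x => (χ x : ℂ)) x‖ ≤ L * |y - x| := by
    intro x hx y hy
    have h1 := Convex.norm_image_sub_le_of_norm_deriv_le (𝕜 := ℝ)
      (fun z _ => (hmS.differentiable (by simp)) z) hL (convex_Icc 0 1) hx hy
    rwa [Real.norm_eq_abs] at h1
  refine ⟨2 + C * (4 + L), by positivity, ?_⟩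
  intro ε h F G d E hε hh hF hG hd hE heq hnp hnm hdn hEn hhx
  obtain ⟨-, hGe, hGp, hGm, -, -, -, -⟩ := hFB.1 G hG
  obtain ⟨-, hFe, hFp, hFm, hFps, hFms, -, -⟩ := hFB.1 F hF
  have hes : S01 (fun x => d x + E x - (Pm F (h x) - Pm F x)) := by
    refine (hd.add hE).sub ⟨(hFms.comp hh.s).sub hFms, fun x hx => ?_⟩
    rw [hh.o x hx, sub_self]
  have hen : ∀ x, ‖d x + E x - (Pm F (h x) - Pm F x)‖ ≤ (4 + L) * ε := by
    intro x
    have h1 : ‖Pm F (h x) - Pm F x‖ ≤ (2 + L) * ε := by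
      by_cases hx : x ∈ Icc (0 : ℝ) 1
      · have h2 := hLip x hx (h x) (hh.maps hx)
        have hFχ := hF.sub hχS
        obtain ⟨-, h3, -, -⟩ := hFB.2 _ _ hFχ hχS
        obtain ⟨-, -, -, -, -, -, -, h4⟩ := hFB.1 _ hFχ
        have e1 : (fun y => F y - (χ y : ℂ) + (χ y : ℂ)) = F := by
          funext y; ring
        rw [e1] at h3
        rw [h3, h3]
        have e2 : ∀ a b c e : ℂ, a + b - (c + e) = (a - c) + (b - e) := by intros; ring
        rw [e2]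
        have h5 := h4 x
        have h6 := h4 (h x)
        have h7 := hhx x
        refine (norm_add_le _ _).trans ?_
        have h8 : ‖Pm (fun x => F x - (χ x : ℂ)) (h x) - Pm (fun x => F x - (χ x : ℂ)) x‖ ≤
            2 * ε := (norm_sub_le _ _).trans (by linarith)
        nlinarith
      · rw [hh.o x hx, sub_self, norm_zero]
        positivity
    refine (norm_sub_le _ _).trans ?_
    refine (add_le_add (norm_add_le _ _) le_rfl).trans ?_
    have := hdn x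
    have := hEn x
    nlinarith
  obtain ⟨-, hee, hep, hem, -, -, -, -⟩ := hFB.1 _ hes
  obtain ⟨hc1, hc2, hc3, -⟩ := hHC
  refine ⟨_, _, _, _, hc1 _ _ _ _ hGp hep, hc2 _ _ _ _ (hc2 _ _ _ _ hGm hem) (hc3 _ _ hFm), ?_, ?_⟩
  · intro x
    have h1 := heq x
    have h2 := hFe (h x)
    have h3 := hGe x
    have h4 := hee x
    linear_combination h1 - h2 + h3 + h4
  · have hb1 := hHB.1 _ _ hGp
    have hb2 := hHB.1 _ _ hep
    refine (hBM.1 _ _ hb1.1.1.1 hb2.1.1.1).trans ?_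
    refine (add_le_add hb1.2 (hLI _ _ hes hen)).trans ?_
    have hnn : 0 ≤ NP G := by
      unfold NP
      exact integral_nonneg fun _ => norm_nonneg _
    rw [← ENNReal.ofReal_add (by positivity) (by positivity)]
    apply ENNReal.ofReal_le_ofReal
    nlinarith

/-! ### the positions -/

/-- the positions of the intervals -/
noncomputable def pos (K : ℕ → ℝ) (C : ℝ) : ℕ → ℝ
  | 0 => 0
  | m + 1 => pos K C m + (2 + ∑ i ∈ Finset.range (m + 2), K i * C * 4 ^ (m + 1))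

theorem pos_step {K : ℕ → ℝ} {C : ℝ} (hK : ∀ j, 0 ≤ K j) (hC : 0 ≤ C) {m i : ℕ}
    (hi : i ≤ m + 1) : pos K C m + (2 + K i * C * 4 ^ (m + 1)) ≤ pos K C (m + 1) := by
  have h1 : K i * C * 4 ^ (m + 1) ≤ ∑ i ∈ Finset.range (m + 2), K i * C * 4 ^ (m + 1) :=
    Finset.single_le_sum (f := fun i => K i * C * 4 ^ (m + 1))
      (fun j _ => by have := hK j; positivity) (Finset.mem_range.2 (by omega))
  rw [pos]
  linarith

theorem pos_step' {K : ℕ → ℝ} {C : ℝ} (hK : ∀ j, 0 ≤ K j) (hC : 0 ≤ C) (m : ℕ) :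
    pos K C m + 2 ≤ pos K C (m + 1) := by
  have h1 := pos_step hK hC (m := m) (i := 0) (by omega)
  have h2 : 0 ≤ K 0 * C * 4 ^ (m + 1) := by have := hK 0; positivity
  linarith

theorem pos_mono {K : ℕ → ℝ} {C : ℝ} (hK : ∀ j, 0 ≤ K j) (hC : 0 ≤ C) : Monotone (pos K C) :=
  monotone_nat_of_le_succ fun m => by linarith [pos_step' hK hC m]

theorem pos_lt {K : ℕ → ℝ} {C : ℝ} (hK : ∀ j, 0 ≤ K j) (hC : 0 ≤ C) {a b i : ℕ} (hab : a < b)
    (hi : i ≤ b) : pos K C a + (2 + K i * C * 4 ^ b) ≤ pos K C b := by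
  obtain ⟨m, rfl⟩ : ∃ m, b = m + 1 := ⟨b - 1, by omega⟩
  have h1 := pos_mono hK hC (show a ≤ m by omega)
  have h2 := pos_step hK hC hi
  linarith

theorem pos_far {K : ℕ → ℝ} {C : ℝ} (hK : ∀ j, 0 ≤ K j) (hC : 0 ≤ C) {j k : ℕ} (hjk : j ≠ k) :
    2 + K j * C * 2 ^ (j + k) ≤ |pos K C k - pos K C j| := by
  have hKC : 0 ≤ K j * C := mul_nonneg (hK j) hC
  rcases lt_or_gt_of_ne hjk with h | h
  · have h1 := pos_lt hK hC h h.le
    have h2 : (2 : ℝ) ^ (j + k) ≤ 4 ^ k := by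
      rw [show (4 : ℝ) = 2 ^ 2 by norm_num, ← pow_mul]
      exact pow_le_pow_right₀ (by norm_num) (by omega)
    have h3 := mul_le_mul_of_nonneg_left h2 hKC
    refine le_trans ?_ (le_abs_self _)
    linarith
  · have h1 := pos_lt hK hC h (le_refl j)
    have h2 : (2 : ℝ) ^ (j + k) ≤ 4 ^ j := by
      rw [show (4 : ℝ) = 2 ^ 2 by norm_num, ← pow_mul]
      exact pow_le_pow_right₀ (by norm_num) (by omega)
    have h3 := mul_le_mul_of_nonneg_left h2 hKC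
    rw [abs_sub_comm]
    refine le_trans ?_ (le_abs_self _)
    linarith

theorem far_num {K C s : ℝ} (hK : 0 ≤ K) (hC : 0 ≤ C) {n : ℕ} (h : 2 + K * C * 2 ^ n ≤ |s|) :
    K * C / s ^ 2 ≤ (1 / 2) ^ n := by
  have h0 : 0 ≤ K * C * 2 ^ n := by positivity
  have h1 : 1 ≤ |s| := by linarith
  have h2 : 0 < s ^ 2 := by
    rw [← sq_abs]
    positivity
  rw [div_le_iff₀ h2, ← sq_abs, one_div, inv_pow, inv_mul_eq_div, le_div_iff₀ (by positivity)]
  nlinarith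

/-! ### the other intervals -/

theorem tsum_half (k : ℕ) : Summable (fun j : ℕ => (1 / 2 : ℝ) ^ (j + k)) ∧
    ∑' j : ℕ, (1 / 2 : ℝ) ^ (j + k) = 2 * (1 / 2) ^ k := by
  have h1 : Summable (fun j : ℕ => (1 / 2 : ℝ) ^ j) := summable_geometric_two
  constructor
  · simp_rw [pow_add]
    exact h1.mul_right _
  · simp_rw [pow_add]
    rw [tsum_mul_right, tsum_geometric_two]

theorem NP_nonneg (F : ℝ → ℂ) : 0 ≤ NP F := integral_nonneg fun _ => norm_nonneg _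

theorem NM_nonneg (F : ℝ → ℂ) : 0 ≤ NM F := integral_nonneg fun _ => norm_nonneg _

theorem far_part (hFB : S_FB) (hHC : S_HC) {H : ℝ → ℝ} {h : ℕ → ℝ → ℝ} {X : ℕ → ℝ}
    (hh : ∀ j, Dif (h j)) (hX : ∀ j k, j ≠ k → 2 ≤ |X k - X j|)
    (hH : ∀ j, ∀ x ∈ Icc (X j) (X j + 1), H x = X j + h j (x - X j))
    (hH' : ∀ x, (∀ j, x ∉ Icc (X j) (X j + 1)) → H x = x) (F : ℝ → ℂ) (k : ℕ)
    (he : ∀ j, j ≠ k → S01 (fun x => Pp F (h j x - (X k - X j)) - Pp F (x - (X k - X j))) ∧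
      NP (fun x => Pp F (h j x - (X k - X j)) - Pp F (x - (X k - X j))) +
        NM (fun x => Pp F (h j x - (X k - X j)) - Pp F (x - (X k - X j))) ≤ (1 / 2) ^ (j + k)) :
    ∃ u v : ℝ → ℂ, HP u (2 * (1 / 2) ^ k) ∧ HM v (2 * (1 / 2) ^ k) ∧
      ∀ x, Pp F (H x - X k) = Pp F (h k (x - X k)) + (u x + v x) := by
  obtain ⟨-, -, -, hc4, hc5, hc6, hc7⟩ := hHC
  obtain ⟨hs1, hs2⟩ := tsum_half k
  set e : ℕ → ℝ → ℂ := fun j => if j = k then fun _ => 0 else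
    fun x => Pp F (h j x - (X k - X j)) - Pp F (x - (X k - X j)) with he_def
  have hek : e k = fun _ => 0 := by rw [he_def]; simp
  have hej : ∀ j, j ≠ k → e j = fun x => Pp F (h j x - (X k - X j)) - Pp F (x - (X k - X j)) := by
    intro j hj
    rw [he_def]
    simp [hj]
  have hS : ∀ j, S01 (e j) ∧ NP (e j) + NM (e j) ≤ (1 / 2) ^ (j + k) := by
    intro j
    by_cases hj : j = k
    · rw [hj, hek, NP_zero, NM_zero, add_zero]
      exact ⟨S01.zero, by positivity⟩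
    · rw [hej j hj]
      exact he j hj
  have hP : ∀ j, HP (fun x => Pp (e j) (x - X j)) ((1 / 2) ^ (j + k)) := by
    intro j
    obtain ⟨-, -, h1, -⟩ := hFB.1 _ (hS j).1
    exact (hc4 _ _ (X j) h1).mono (by linarith [(hS j).2, NM_nonneg (e j)])
  have hM : ∀ j, HM (fun x => Pm (e j) (x - X j)) ((1 / 2) ^ (j + k)) := by
    intro j
    obtain ⟨-, -, -, h1, -⟩ := hFB.1 _ (hS j).1
    exact (hc5 _ _ (X j) h1).mono (by linarith [(hS j).2, NP_nonneg (e j)])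
  obtain ⟨hu1, hu2⟩ := hc6 _ _ hP hs1
  obtain ⟨hv1, hv2⟩ := hc7 _ _ hM hs1
  rw [hs2] at hu2 hv2
  refine ⟨_, _, hu2, hv2, fun x => ?_⟩
  have hsum : (∑' j, Pp (e j) (x - X j)) + ∑' j, Pm (e j) (x - X j) = ∑' j, e j (x - X j) := by
    rw [← (hu1 x).tsum_add (hv1 x)]
    congr 1
    funext j
    obtain ⟨-, h1, -⟩ := hFB.1 _ (hS j).1
    exact (h1 _).symm
  rw [hsum]
  have hmem : ∀ i, x ∈ Icc (X i) (X i + 1) → ∀ j, j ≠ i → x - X j ∉ Icc (0 : ℝ) 1 := by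
    intro i hi j hj hcon
    have h1 := hX j i hj
    have h2 : |X i - X j| ≤ 1 := by
      rw [abs_le]
      constructor
      · linarith [hi.1, hi.2, hcon.1, hcon.2]
      · linarith [hi.1, hi.2, hcon.1, hcon.2]
    linarith
  by_cases hx : ∃ i, x ∈ Icc (X i) (X i + 1)
  · obtain ⟨i, hi⟩ := hx
    rw [tsum_eq_single i fun j hj => (hS j).1.o _ (hmem i hi j hj), hH i x hi]
    by_cases hik : i = k
    · rw [hik, hek, add_zero, add_sub_cancel_left]
    · rw [hej i hik, (hh k).o _ (hmem i hi k (Ne.symm hik))]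
      have e1 : X i + h i (x - X i) - X k = h i (x - X i) - (X k - X i) := by ring
      have e2 : x - X i - (X k - X i) = x - X k := by ring
      simp only
      rw [e1, e2]
      ring
  · have hx' : ∀ i, x ∉ Icc (X i) (X i + 1) := fun i hi => hx ⟨i, hi⟩
    have hx'' : ∀ i, x - X i ∉ Icc (0 : ℝ) 1 := by
      intro i hi
      exact hx' i ⟨by linarith [hi.1], by linarith [hi.2]⟩
    have h1 : ∑' j, e j (x - X j) = 0 := by
      have : (fun j => e j (x - X j)) = fun _ => 0 := by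
        funext j
        exact (hS j).1.o _ (hx'' j)
      rw [this, tsum_zero]
    rw [h1, hH' x hx', (hh k).o _ (hx'' k), add_zero]

/-- **The final result from the parts.** -/
theorem final (hHB : S_HB) (hBM : S_BM) (hHC : S_HC) (hFB : S_FB) (hLI : S_LI) (hGLUE : S_GLUE)
    (hLB : S_LB) (hFAR : S_FAR) (hGM : S_GM) : ∃ H : ℝ → ℝ, InG H ∧ ¬ PropL H := by
  obtain ⟨χ, hχ, hχ0, hχ1⟩ := exists_bump
  obtain ⟨c, ε₁, hc, hε₁, hLB⟩ := hLB χ hχ hχ1
  obtain ⟨C₀, C₁, hC₁, hGM⟩ := hGM χ hχ hχ0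
  obtain ⟨C₂, hC₂, hmain⟩ := main_part hHB hBM hHC hFB hLI hχ
  set ε : ℕ → ℝ := fun k => min ε₁ (1 / (k + 1)) with hε_def
  have hε : ∀ k, 0 < ε k := fun k => lt_min hε₁ (by positivity)
  have hε1 : ∀ k, ε k ≤ ε₁ := fun k => min_le_left _ _
  have hε2 : ∀ k, ε k ≤ 1 / (k + 1) := fun k => min_le_right _ _
  choose h F G d E hh hrh hF hG hd hE hFn heq hnp hnm hit hdn hEn hhx using fun k => hGM (ε k) (hε k)
  choose K hK hfar using fun j => hFAR (h j) (hh j)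
  set X : ℕ → ℝ := pos K C₁ with hX_def
  obtain ⟨H, hHG, hH1, hH2⟩ := hGLUE C₀ h X hh hrh (pos_step' hK hC₁)
  refine ⟨H, hHG, ?_⟩
  rintro ⟨c₀, hc₀, hL⟩
  have hX2 : ∀ j k, j ≠ k → 2 ≤ |X k - X j| := by
    intro j k hjk
    have h1 := pos_far hK hC₁ hjk
    have h2 : 0 ≤ K j * C₁ * 2 ^ (j + k) := by have := hK j; positivity
    rw [hX_def]
    linarith
  have hkey : ∀ k, ENNReal.ofReal (c₀ * c) ≤ ENNReal.ofReal (C₂ * ε k + 4 * (1 / 2) ^ k) := by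
    intro k
    obtain ⟨u₀, v₀, N, M, hu₀, hv₀, huv₀, hbu₀⟩ := hmain (ε k) (h k) (F k) (G k) (d k) (E k) (hε k)
      (hh k) (hF k) (hG k) (hd k) (hE k) (heq k) (hnp k) (hnm k) (hdn k) (hEn k) (hhx k)
    obtain ⟨u₁, v₁, hu₁, hv₁, huv₁⟩ := far_part hFB hHC hh hX2 hH1 hH2 (F k) k (fun j hj => by
      obtain ⟨h1, h2⟩ := hfar j (F k) C₁ (X k - X j) (hF k) (hFn k) (hX2 j k hj)
      exact ⟨h1, h2.trans (far_num (hK j) hC₁ (pos_far hK hC₁ hj))⟩)
    obtain ⟨-, -, hp1, -, -, -, -, -⟩ := hFB.1 (F k) (hF k)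
    have hHC' := hHC
    obtain ⟨hc1, hc2, -, hc4, hc5, -, -⟩ := hHC'
    have hf := hHB.1 _ _ (hc4 _ _ (X k) hp1)
    have hu := hHB.1 _ _ (hc1 _ _ _ _ (hc4 _ _ (X k) hu₀) hu₁)
    have hv := hHB.2 _ _ (hc2 _ _ _ _ (hc5 _ _ (X k) hv₀) hv₁)
    have hu₀' := hHB.1 _ _ (hc4 _ _ (X k) hu₀)
    have hu₁' := hHB.1 _ _ hu₁
    have hdec : ∀ x, Pp (F k) (H x - X k) = (u₀ (x - X k) + u₁ x) + (v₀ (x - X k) + v₁ x) := by
      intro x
      rw [huv₁, huv₀]
      ring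
    have hproj : IsProj ((fun x => Pp (F k) (x - X k)) ∘ H) (fun x => u₀ (x - X k) + u₁ x) := by
      refine ⟨?_, hu.1, ?_⟩
      · have e1 : (fun x => Pp (F k) (x - X k)) ∘ H =
            fun x => (u₀ (x - X k) + u₁ x) + (v₀ (x - X k) + v₁ x) := by
          funext x
          exact hdec x
        rw [e1]
        exact hBM.2.1 _ _ hu.1.1 hv.2.1
      · have e1 : (fun x => starRingEnd ℂ (((fun x => Pp (F k) (x - X k)) ∘ H) x -
            (u₀ (x - X k) + u₁ x))) = fun x => starRingEnd ℂ (v₀ (x - X k) + v₁ x) := by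
          funext x
          congr 1
          rw [Function.comp_apply, hdec x]
          ring
        rw [e1]
        exact hv.1
    have h1 := hL _ _ hf.1 hproj
    have h2 : ENNReal.ofReal c ≤ bmo (fun x => Pp (F k) (x - X k)) := by
      rw [hBM.2.2]
      exact hLB (F k) (hF k) ((hit k).trans (hε1 k)) ((hnm k).trans (hε1 k))
    have h3 : bmo (fun x => u₀ (x - X k) + u₁ x) ≤
        ENNReal.ofReal (C₂ * ε k + 4 * (1 / 2) ^ k) := by
      refine (hBM.1 _ _ hu₀'.1.1.1 hu₁'.1.1.1).trans ?_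
      rw [hBM.2.2 u₀ (X k), ENNReal.ofReal_add (by have := hε k; positivity) (by positivity)]
      refine add_le_add hbu₀ (hu₁'.2.trans (ENNReal.ofReal_le_ofReal (le_of_eq (by ring))))
    rw [ENNReal.ofReal_mul hc₀.le]
    exact ((mul_le_mul_right h2 _).trans h1).trans h3
  have hlim : Filter.Tendsto (fun k : ℕ => C₂ * (1 / ((k : ℝ) + 1)) + 4 * (1 / 2 : ℝ) ^ k)
      Filter.atTop (nhds (C₂ * 0 + 4 * 0)) :=
    (tendsto_one_div_add_atTop_nhds_zero_nat.const_mul C₂).add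
      ((tendsto_pow_atTop_nhds_zero_of_lt_one (by norm_num) (by norm_num)).const_mul 4)
  rw [mul_zero, mul_zero, add_zero] at hlim
  obtain ⟨k, hk⟩ := (hlim.eventually (gt_mem_nhds (mul_pos hc₀ hc))).exists
  have h1 := hkey k
  rw [ENNReal.ofReal_le_ofReal_iff (by have := hε k; positivity)] at h1
  have h2 := mul_le_mul_of_nonneg_left (hε2 k) hC₂
  linarith

end Pool.Agent.Y290.PL
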