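import Pool.Agent.Y290.PL.Stm

/-!
# The game
-/

set_option autoImplicit false

namespace Pool.Agent.Y290.PL

open MeasureTheory Set
open scoped FourierTransform ENNReal ContDiff

/-! ### simple facts -/

theorem S01.add {F G : ℝ → ℂ} (hF : S01 F) (hG : S01 G) : S01 (fun x => F x + G x) :=
  ⟨hF.s.add hG.s, fun x hx => by rw [hF.o x hx, hG.o x hx, add_zero]⟩

theorem S01.sub {F G : ℝ → ℂ} (hF : S01 F) (hG : S01 G) : S01 (fun x => F x - G x) :=
  ⟨hF.s.sub hG.s, fun x hx => by rw [hF.o x hx, hG.o x hx, sub_zero]⟩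

theorem S01.neg {F : ℝ → ℂ} (hF : S01 F) : S01 (fun x => -F x) :=
  ⟨hF.s.neg, fun x hx => by rw [hF.o x hx, neg_zero]⟩

theorem S01.mul {F g : ℝ → ℂ} (hF : S01 F) (hg : ContDiff ℝ ∞ g) : S01 (fun x => F x * g x) :=
  ⟨hF.s.mul hg, fun x hx => by rw [hF.o x hx, zero_mul]⟩

theorem S01.zero : S01 (fun _ => 0) := ⟨contDiff_const, fun _ _ => rfl⟩

theorem S01.ofCut {χ : ℝ → ℝ} (hχ : Cut χ) : S01 (fun x => (χ x : ℂ)) :=
  ⟨Complex.ofRealCLM.contDiff.comp hχ.s, fun x hx => by rw [hχ.o x hx, Complex.ofReal_zero]⟩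

theorem Dif.mono {h : ℝ → ℝ} (hh : Dif h) : StrictMono h := strictMono_of_deriv_pos hh.d

theorem Dif.maps {h : ℝ → ℝ} (hh : Dif h) {x : ℝ} (hx : x ∈ Icc (0 : ℝ) 1) :
    h x ∈ Icc (0 : ℝ) 1 := by
  have hc : Continuous h := hh.s.continuous
  have h0 : h 0 = 0 := by
    have h1 : Filter.Tendsto h (nhdsWithin 0 (Iio 0)) (nhds (h 0)) :=
      (hc.tendsto 0).mono_left nhdsWithin_le_nhds
    have h2 : Filter.Tendsto h (nhdsWithin 0 (Iio 0)) (nhds 0) := by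
      have h3 : Filter.Tendsto (fun x : ℝ => x) (nhdsWithin 0 (Iio 0)) (nhds 0) :=
        (continuous_id.tendsto 0).mono_left nhdsWithin_le_nhds
      refine h3.congr' ?_
      filter_upwards [self_mem_nhdsWithin] with y hy
      exact (hh.o y (fun h => not_le.2 hy h.1)).symm
    exact tendsto_nhds_unique h1 h2
  have h1 : h 1 = 1 := by
    have h1 : Filter.Tendsto h (nhdsWithin 1 (Ioi 1)) (nhds (h 1)) :=
      (hc.tendsto 1).mono_left nhdsWithin_le_nhds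
    have h2 : Filter.Tendsto h (nhdsWithin 1 (Ioi 1)) (nhds 1) := by
      have h3 : Filter.Tendsto (fun x : ℝ => x) (nhdsWithin 1 (Ioi 1)) (nhds 1) :=
        (continuous_id.tendsto 1).mono_left nhdsWithin_le_nhds
      refine h3.congr' ?_
      filter_upwards [self_mem_nhdsWithin] with y hy
      exact (hh.o y (fun h => not_le.2 hy h.2)).symm
    exact tendsto_nhds_unique h1 h2
  constructor
  · rw [← h0]; exact hh.mono.monotone hx.1
  · rw [← h1]; exact hh.mono.monotone hx.2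

theorem Dif.not_mem {h : ℝ → ℝ} (hh : Dif h) {x : ℝ} (hx : x ∉ Icc (0 : ℝ) 1) :
    h x ∉ Icc (0 : ℝ) 1 := by
  rw [hh.o x hx]; exact hx

theorem S01.comp {F : ℝ → ℂ} {h : ℝ → ℝ} (hF : S01 F) (hh : Dif h) : S01 (fun x => F (h x)) :=
  ⟨hF.s.comp hh.s, fun x hx => hF.o _ (hh.not_mem hx)⟩

theorem S01.compact {F : ℝ → ℂ} (hF : S01 F) : HasCompactSupport F :=
  HasCompactSupport.intro isCompact_Icc hF.o

theorem S01.lip {F : ℝ → ℂ} (hF : S01 F) : ∃ L : ℝ, 0 < L ∧ ∀ x y, ‖F x - F y‖ ≤ L * |x - y| := by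
  obtain ⟨K, hK⟩ := hF.s.lipschitzWith_of_hasCompactSupport hF.compact (by simp)
  refine ⟨K + 1, by positivity, fun x y => ?_⟩
  have h1 := hK.dist_le_mul x y
  rw [dist_eq_norm, Real.dist_eq] at h1
  have h2 := abs_nonneg (x - y)
  nlinarith

theorem S01.bdd {F : ℝ → ℂ} (hF : S01 F) : ∃ K : ℝ, ∀ x, ‖F x‖ ≤ K :=
  hF.s.continuous.bounded_above_of_compact_support hF.compact

theorem ej_norm (j : ℤ) (t : ℝ) : ‖ej j t‖ = 1 := Complex.norm_exp_ofReal_mul_I _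

theorem FA.bdd {A : ℝ → ℂ} {a : ℕ → ℂ} (h : FA A a) (t : ℝ) : ‖A t‖ ≤ ∑' j, ‖a j‖ := by
  rw [h.eq]
  refine (norm_tsum_le_tsum_norm ?_).trans_eq ?_
  · simpa [norm_mul, ej_norm] using h.sa
  · simp [norm_mul, ej_norm]

theorem per_bdd {φ : ℝ → ℝ} (hc : Continuous φ) (hp : ∀ t, φ (t + 2 * Real.pi) = φ t) :
    ∃ K : ℝ, 0 < K ∧ ∀ t, |φ t| ≤ K := by
  obtain ⟨K, hK⟩ := isCompact_Icc.exists_bound_of_continuousOn (s := Icc (0 : ℝ) (2 * Real.pi))
    hc.continuousOn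
  refine ⟨|K| + 1, by positivity, fun t => ?_⟩
  have hper : Function.Periodic φ (2 * Real.pi) := hp
  obtain ⟨s, hs, hst⟩ := hper.exists_mem_Ico₀ (by positivity) t
  rw [hst]
  have h1 := hK s ⟨hs.1, hs.2.le⟩
  rw [Real.norm_eq_abs] at h1
  have h2 := le_abs_self K
  linarith

theorem NP_zero : NP (fun _ => 0) = 0 := by
  unfold NP
  have : 𝓕 (fun _ : ℝ => (0 : ℂ)) = fun _ => 0 := by
    funext ξ
    simp [Real.fourier_eq']
  rw [this]
  simp

theorem NM_zero : NM (fun _ => 0) = 0 := by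
  unfold NM
  have : 𝓕 (fun _ : ℝ => (0 : ℂ)) = fun _ => 0 := by
    funext ξ
    simp [Real.fourier_eq']
  rw [this]
  simp

/-! ### the state of the game -/

/-- the state of the game -/
structure Sta (χ : ℝ → ℝ) (θ β C₀ KA ε : ℝ) (n : ℕ) (h ζ : ℝ → ℝ) (F G d E : ℝ → ℂ) : Prop where
  hh : Dif h
  hζ : Cut ζ
  hF : S01 F
  hG : S01 G
  hd : S01 d
  hE : S01 E
  dz : ∀ x, d x ≠ 0 → ζ x = 1
  eq : ∀ x, F (h x) = G x + d x + E x
  dn : ∀ x, ‖d x‖ ≤ θ ^ n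
  Fn : ∀ x, ‖F x‖ ≤ 1 + KA * ∑ i ∈ Finset.range n, θ ^ i
  np : NP G ≤ ε * (1 - (1 / 2) ^ n)
  nm : NM (fun x => F x - (χ x : ℂ)) ≤ ε * (1 - (1 / 2) ^ n)
  it : ‖∫ x, (F x - (χ x : ℂ)) * ((deriv χ x : ℝ) : ℂ)‖ ≤ ε * (1 - (1 / 2) ^ n)
  En : ∀ x, ‖E x‖ ≤ ε * (1 - (1 / 2) ^ n)
  hx : ∀ x, |h x - x| ≤ ε * (1 - (1 / 2) ^ n)
  rh : RH β (C₀ + (1 - (1 / 2) ^ n)) h ζ

/-- one step of the game -/
theorem step (hRH : S_RH) (hNSP : S_NSP) (hAN : S_AN) (hINV : S_INV) (hFB : S_FB)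
    {χ : ℝ → ℝ} (hχ : Cut χ) {φ κ : ℝ → ℝ} {A B M : ℝ → ℂ} {a b : ℕ → ℂ} {θ β : ℝ}
    (hc : CD φ κ A B M a b θ β) : ∃ C₀ KA : ℝ, 0 < C₀ ∧ 0 ≤ KA ∧
      (∀ ζ, Cut ζ → RH β C₀ (fun x => x) ζ) ∧
      ∀ ε : ℝ, 0 < ε → ∀ (n : ℕ) (h ζ : ℝ → ℝ) (F G d E : ℝ → ℂ),
        Sta χ θ β C₀ KA ε n h ζ F G d E → ∃ (h' ζ' : ℝ → ℝ) (F' G' d' E' : ℝ → ℂ),
          Sta χ θ β C₀ KA ε (n + 1) h' ζ' F' G' d' E' := by
  obtain ⟨C₀, hC₀, hRH1, hRH2⟩ := hRH φ κ β hc.rd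
  set KA : ℝ := ∑' j, ‖a j‖ with hKA
  have hKA0 : 0 ≤ KA := tsum_nonneg fun _ => norm_nonneg _
  refine ⟨C₀, KA, hC₀, hKA0, hRH1, fun ε hε n h ζ F G d E st => ?_⟩
  obtain ⟨Kφ, hKφ0, hKφ⟩ := per_bdd hc.rd.φs.continuous hc.rd.φp
  obtain ⟨k, hk, hkh, hhk⟩ := hINV h st.hh
  set δ : ℝ → ℂ := fun y => d (k y) with hδ
  have hδS : S01 δ := st.hd.comp hk
  have hδh : ∀ x, δ (h x) = d x := fun x => by rw [hδ]; simp only [hkh]
  set η : ℝ := ε * (1 / 2) ^ (n + 1) with hη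
  have hη0 : 0 < η := by positivity
  have hsum : ε * (1 - (1 / 2) ^ n) + η = ε * (1 - (1 / 2) ^ (n + 1)) := by
    rw [hη, pow_succ]; ring
  have hpw : (0 : ℝ) ≤ 1 - (1 / 2) ^ n := by
    have : (1 / 2 : ℝ) ^ n ≤ 1 := pow_le_one₀ (by norm_num) (by norm_num)
    linarith
  obtain ⟨Λ1, hΛ10, hΛ1⟩ := hRH2 h ζ (C₀ + (1 - (1 / 2) ^ n)) ((1 / 2) ^ (n + 1)) st.hh st.hζ
    (by linarith) (by positivity) st.rh
  obtain ⟨Λ2, hΛ2⟩ := hNSP h (fun x => -d x) B b st.hh st.hd.neg hc.fb η hη0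
  have hψ : Continuous fun x => ((deriv χ x : ℝ) : ℂ) :=
    Complex.continuous_ofReal.comp (hχ.s.continuous_deriv (by simp))
  obtain ⟨Λ3, hΛ3⟩ := hAN δ A (fun x => ((deriv χ x : ℝ) : ℂ)) a hδS hc.fa hψ η hη0
  obtain ⟨LF, hLF0, hLF⟩ := st.hF.lip
  obtain ⟨Lδ, hLδ0, hLδ⟩ := hδS.lip
  set lam : ℝ := max (max Λ1 Λ2) (max Λ3 ((LF + Lδ * KA + 1) * Kφ / η)) with hlam
  have hl1 : Λ1 ≤ lam := (le_max_left _ _).trans (le_max_left _ _)
  have hl2 : Λ2 ≤ lam := (le_max_right _ _).trans (le_max_left _ _)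
  have hl3 : Λ3 ≤ lam := (le_max_left _ _).trans (le_max_right _ _)
  have hl4 : (LF + Lδ * KA + 1) * Kφ / η ≤ lam := (le_max_right _ _).trans (le_max_right _ _)
  have hl0 : 0 < lam := hΛ10.trans_le hl1
  obtain ⟨hD, hC, hR⟩ := hΛ1 lam hl1
  have hnp := hΛ2 lam hl2
  obtain ⟨hnm, hit⟩ := hΛ3 lam hl3
  set h1 := nh h ζ φ lam with hh1
  -- the displacement
  have hdisp : ∀ x, |h1 x - h x| ≤ Kφ / lam := by
    intro x
    have e1 : h1 x - h x = lam⁻¹ * ζ x * φ (lam * h x) := by rw [hh1]; unfold nh; ring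
    rw [e1, abs_mul, abs_mul, abs_of_pos (inv_pos.2 hl0), abs_of_nonneg (st.hζ.nn x)]
    calc lam⁻¹ * ζ x * |φ (lam * h x)| ≤ lam⁻¹ * 1 * Kφ := by
          gcongr
          · exact st.hζ.le x
          · exact hKφ _
      _ = Kφ / lam := by rw [mul_one, div_eq_inv_mul]
  have hbig : (LF + Lδ * KA + 1) * (Kφ / lam) ≤ η := by
    rw [← mul_div_assoc, div_le_iff₀ hl0]
    rw [div_le_iff₀ hη0] at hl4
    linarith [mul_comm lam η]
  have hq0 : 0 ≤ Kφ / lam := by positivity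
  have hFd : ∀ x, ‖F (h1 x) - F (h x)‖ ≤ LF * (Kφ / lam) := fun x =>
    (hLF _ _).trans (by gcongr; exact hdisp x)
  have hδd : ∀ x, ‖(δ (h1 x) - δ (h x)) * A (lam * h1 x)‖ ≤ Lδ * (Kφ / lam) * KA := by
    intro x
    rw [norm_mul]
    have h2 : ‖δ (h1 x) - δ (h x)‖ ≤ Lδ * (Kφ / lam) :=
      (hLδ _ _).trans (by gcongr; exact hdisp x)
    have h3 := hc.fa.bdd (lam * h1 x)
    exact mul_le_mul h2 h3 (norm_nonneg _) (by positivity)
  -- the relation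
  have hrel : ∀ x, d x * A (lam * h1 x) = d x * (M (lam * h x) - 1 - B (lam * h x)) := by
    intro x
    by_cases hdx : d x = 0
    · rw [hdx, zero_mul, zero_mul]
    · have h2 : lam * h1 x = lam * h x + φ (lam * h x) := by
        rw [hh1]
        unfold nh
        rw [st.dz x hdx]
        field_simp
      have h3 := hc.rel (lam * h x)
      rw [h2]
      congr 1
      linear_combination h3
  have hAs : ContDiff ℝ ∞ fun y : ℝ => A (lam * y) := hc.fa.s.comp (contDiff_const.mul contDiff_id)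
  have hlh : ContDiff ℝ ∞ fun x : ℝ => lam * h x := contDiff_const.mul st.hh.s
  have hlh1 : ContDiff ℝ ∞ fun x : ℝ => lam * h1 x := contDiff_const.mul hD.s
  have hBs : ContDiff ℝ ∞ fun x : ℝ => B (lam * h x) := hc.fb.s.comp hlh
  have hMs : ContDiff ℝ ∞ fun x : ℝ => M (lam * h x) := hc.Ms.comp hlh
  have hAs1 : ContDiff ℝ ∞ fun x : ℝ => A (lam * h1 x) := hc.fa.s.comp hlh1
  have hDA : S01 (fun y => δ y * A (lam * y)) := hδS.mul hAs
  have hχS := S01.ofCut hχ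
  refine ⟨h1, nz h ζ κ lam, fun y => F y + δ y * A (lam * y),
    fun x => G x + -d x * B (lam * h x), fun x => d x * M (lam * h x),
    fun x => E x + ((F (h1 x) - F (h x)) + (δ (h1 x) - δ (h x)) * A (lam * h1 x)), ?_⟩
  constructor
  · exact hD
  · exact hC
  · exact st.hF.add hDA
  · exact st.hG.add (st.hd.neg.mul hBs)
  · exact st.hd.mul hMs
  · exact st.hE.add (((st.hF.comp hD).sub (st.hF.comp st.hh)).add
      (((hδS.comp hD).sub (hδS.comp st.hh)).mul hAs1))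
  · intro x hx
    have h2 : d x ≠ 0 := fun e => hx (by rw [e, zero_mul])
    have h3 : M (lam * h x) ≠ 0 := fun e => hx (by rw [e, mul_zero])
    unfold nz
    rw [st.dz x h2, hc.κM _ h3, mul_one]
  · intro x
    have h2 := st.eq x
    have h3 := hrel x
    have h4 := hδh x
    linear_combination h2 + h3 - A (lam * h1 x) * h4 + 2 * A (lam * h1 x) * h4
  · intro x
    rw [norm_mul, pow_succ]
    exact mul_le_mul (st.dn x) (hc.Mθ _) (norm_nonneg _) (pow_nonneg hc.θ0.le _)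
  · intro x
    rw [Finset.sum_range_succ, mul_add, ← add_assoc]
    refine (norm_add_le _ _).trans (add_le_add (st.Fn x) ?_)
    rw [norm_mul, mul_comm]
    exact mul_le_mul (hc.fa.bdd _) (st.dn _) (norm_nonneg _) hKA0
  · rw [← hsum]
    exact ((hFB.2 G _ st.hG (st.hd.neg.mul hBs)).2.2.1).trans (add_le_add st.np hnp)
  · rw [← hsum]
    have e1 : (fun x => F x + δ x * A (lam * x) - (χ x : ℂ)) =
        fun x => (F x - (χ x : ℂ)) + δ x * A (lam * x) := by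
      funext x; ring
    rw [e1]
    exact ((hFB.2 _ _ (st.hF.sub hχS) hDA).2.2.2).trans (add_le_add st.nm hnm)
  · rw [← hsum]
    have e1 : (fun x => (F x + δ x * A (lam * x) - (χ x : ℂ)) * ((deriv χ x : ℝ) : ℂ)) =
        fun x => (F x - (χ x : ℂ)) * ((deriv χ x : ℝ) : ℂ) +
          δ x * A (lam * x) * ((deriv χ x : ℝ) : ℂ) := by
      funext x; ring
    rw [e1, integral_add]
    · exact (norm_add_le _ _).trans (add_le_add st.it hit)
    · exact (((st.hF.sub hχS).s.continuous).mul hψ).integrable_of_hasCompactSupport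
        ((st.hF.sub hχS).compact.mul_right)
    · exact ((hDA.s.continuous).mul hψ).integrable_of_hasCompactSupport
        (hDA.compact.mul_right)
  · intro x
    rw [← hsum]
    refine (norm_add_le _ _).trans (add_le_add (st.En x) ?_)
    refine (norm_add_le _ _).trans ((add_le_add (hFd x) (hδd x)).trans (le_trans ?_ hbig))
    nlinarith
  · intro x
    rw [← hsum]
    have e1 : h1 x - x = (h x - x) + (h1 x - h x) := by ring
    rw [e1]
    refine (abs_add_le _ _).trans (add_le_add (st.hx x) ((hdisp x).trans (le_trans ?_ hbig)))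
    have : 0 ≤ (LF + Lδ * KA) * (Kφ / lam) := by positivity
    linarith
  · have e1 : C₀ + (1 - (1 / 2 : ℝ) ^ (n + 1)) = C₀ + (1 - (1 / 2) ^ n) + (1 / 2) ^ (n + 1) := by
      rw [pow_succ]; ring
    rw [e1]
    exact hR

end Pool.Agent.Y290.PL
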