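import Pool.Agent.Y290.PL.Game

/-!
# The game: iteration
-/

set_option autoImplicit false

namespace Pool.Agent.Y290.PL

open MeasureTheory Set
open scoped FourierTransform ENNReal ContDiff

/-- The result of the game. -/
def S_GM : Prop := ∀ χ : ℝ → ℝ, Cut χ → (∀ x, x ∉ Icc (1 / 4 : ℝ) (3 / 4) → χ x = 0) →
  ∃ C₀ C₁ : ℝ, 0 ≤ C₁ ∧ ∀ ε : ℝ, 0 < ε →
  ∃ (h : ℝ → ℝ) (F G d E : ℝ → ℂ), Dif h ∧ RH 0 C₀ h (fun _ => 0) ∧ S01 F ∧ S01 G ∧ S01 d ∧
    S01 E ∧ (∀ x, ‖F x‖ ≤ C₁) ∧ (∀ x, F (h x) = G x + d x + E x) ∧ NP G ≤ ε ∧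
    NM (fun x => F x - (χ x : ℂ)) ≤ ε ∧
    ‖∫ x, (F x - (χ x : ℂ)) * ((deriv χ x : ℝ) : ℂ)‖ ≤ ε ∧ (∀ x, ‖d x‖ ≤ ε) ∧
    (∀ x, ‖E x‖ ≤ ε) ∧ ∀ x, |h x - x| ≤ ε

/-- a cutoff function which is one on the middle half of the interval -/
theorem exists_cut : ∃ ζ : ℝ → ℝ, Cut ζ ∧ ∀ x ∈ Icc (1 / 4 : ℝ) (3 / 4), ζ x = 1 := by
  let f : ContDiffBump (1 / 2 : ℝ) := ⟨1 / 4, 1 / 2, by norm_num, by norm_num⟩
  refine ⟨f, ⟨f.contDiff, fun x hx => ?_, fun x => f.nonneg, fun x => f.le_one⟩, fun x hx => ?_⟩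
  · apply f.zero_of_le_dist
    change 1 / 2 ≤ dist x (1 / 2)
    rw [Real.dist_eq]
    rw [mem_Icc, not_and_or, not_le, not_le] at hx
    rcases hx with hx | hx
    · rw [abs_of_neg (by linarith)]; linarith
    · rw [abs_of_pos (by linarith)]; linarith
  · apply f.one_of_mem_closedBall
    change x ∈ Metric.closedBall (1 / 2 : ℝ) (1 / 4)
    rw [Metric.mem_closedBall, Real.dist_eq, abs_le]
    constructor
    · linarith [hx.1]
    · linarith [hx.2]

theorem dif_id : Dif (fun x => x) :=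
  ⟨contDiff_id, fun x => by rw [show deriv (fun x : ℝ => x) x = 1 from deriv_id x]; exact one_pos,
    fun _ _ => rfl⟩

/-- **The game.** -/
theorem t_GM (hCIRC : S_CIRC) (hRH : S_RH) (hNSP : S_NSP) (hAN : S_AN) (hINV : S_INV)
    (hFB : S_FB) : S_GM := by
  intro χ hχ hχ0
  obtain ⟨φ, κ, A, B, M, a, b, θ, β, hc⟩ := hCIRC
  obtain ⟨C₀, KA, hC₀, hKA, hid, hstep⟩ := step hRH hNSP hAN hINV hFB hχ hc
  obtain ⟨ζ₀, hζ₀, hζ₁⟩ := exists_cut
  have hχS := S01.ofCut hχ
  refine ⟨C₀ + 1, 1 + KA * (1 - θ)⁻¹, by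
    have : 0 < 1 - θ := by linarith [hc.θ1]
    positivity, fun ε hε => ?_⟩
  have hmain : ∀ n : ℕ, ∃ (h ζ : ℝ → ℝ) (F G d E : ℝ → ℂ),
      Sta χ θ β C₀ KA ε n h ζ F G d E := by
    intro n
    induction n with
    | zero =>
      refine ⟨fun x => x, ζ₀, fun x => (χ x : ℂ), fun _ => 0, fun x => (χ x : ℂ), fun _ => 0, ?_⟩
      have e0 : (fun x => (χ x : ℂ) - (χ x : ℂ)) = fun _ : ℝ => (0 : ℂ) := by
        funext x; rw [sub_self]
      have e1 : ε * (1 - (1 / 2 : ℝ) ^ 0) = 0 := by rw [pow_zero, sub_self, mul_zero]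
      constructor
      · exact dif_id
      · exact hζ₀
      · exact hχS
      · exact S01.zero
      · exact hχS
      · exact S01.zero
      · intro x hx
        apply hζ₁
        by_contra hcon
        exact hx (by rw [hχ0 x hcon, Complex.ofReal_zero])
      · intro x
        rw [zero_add, add_zero]
      · intro x
        rw [pow_zero, Complex.norm_real, Real.norm_eq_abs, abs_of_nonneg (hχ.nn x)]
        exact hχ.le x
      · intro x
        rw [Finset.range_zero, Finset.sum_empty, mul_zero, add_zero, Complex.norm_real,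
          Real.norm_eq_abs, abs_of_nonneg (hχ.nn x)]
        exact hχ.le x
      · rw [NP_zero, e1]
      · rw [e0, NM_zero, e1]
      · rw [e1]
        simp
      · intro x
        rw [norm_zero, e1]
      · intro x
        rw [sub_self, abs_zero, e1]
      · rw [pow_zero, sub_self, add_zero]
        exact hid ζ₀ hζ₀
    | succ n ih =>
      obtain ⟨h, ζ, F, G, d, E, st⟩ := ih
      exact hstep ε hε n h ζ F G d E st
  obtain ⟨n, hn⟩ : ∃ n : ℕ, θ ^ n < ε := exists_pow_lt_of_lt_one hε hc.θ1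
  obtain ⟨h, ζ, F, G, d, E, st⟩ := hmain n
  have hpow : (0 : ℝ) < (1 / 2) ^ n := by positivity
  have hle : ε * (1 - (1 / 2) ^ n) ≤ ε := by nlinarith
  refine ⟨h, F, G, d, E, st.hh, ?_, st.hF, st.hG, st.hd, st.hE, fun x => ?_, st.eq,
    st.np.trans hle, st.nm.trans hle, st.it.trans hle, fun x => (st.dn x).trans hn.le,
    fun x => (st.En x).trans hle, fun x => (st.hx x).trans hle⟩
  · intro x y hxy
    have h1 := st.rh x y hxy
    have hcd : Continuous (deriv h) := st.hh.s.continuous_deriv (by simp)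
    have h2 : ∫ t in x..y, (deriv h t) ^ 2 * (1 + 0 * 0) ≤
        ∫ t in x..y, (deriv h t) ^ 2 * (1 + β * ζ t) := by
      apply intervalIntegral.integral_mono_on hxy.le
      · exact ((hcd.pow 2).mul continuous_const).intervalIntegrable _ _
      · exact ((hcd.pow 2).mul (continuous_const.add
          (continuous_const.mul st.hζ.s.continuous))).intervalIntegrable _ _
      · intro t _
        have := hc.rd.β0
        have := st.hζ.nn t
        have h5 : (0 : ℝ) * 0 ≤ β * ζ t := by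
          rw [mul_zero]
          exact mul_nonneg hc.rd.β0 (st.hζ.nn t)
        have h6 := mul_le_mul_of_nonneg_left h5 (sq_nonneg (deriv h t))
        nlinarith [h6]
    calc (y - x) * ∫ t in x..y, (deriv h t) ^ 2 * (1 + 0 * 0) ≤
          (y - x) * ∫ t in x..y, (deriv h t) ^ 2 * (1 + β * ζ t) :=
          mul_le_mul_of_nonneg_left h2 (by linarith)
      _ ≤ (C₀ + (1 - (1 / 2) ^ n)) * (h y - h x) ^ 2 := h1
      _ ≤ (C₀ + 1) * (h y - h x) ^ 2 := by
          apply mul_le_mul_of_nonneg_right _ (sq_nonneg _)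
          linarith
  · refine (st.Fn x).trans ?_
    have h1 : ∑ i ∈ Finset.range n, θ ^ i ≤ (1 - θ)⁻¹ := by
      have h2 := Summable.sum_le_tsum (f := fun i => θ ^ i) (Finset.range n)
        (fun i _ => pow_nonneg hc.θ0.le i) (summable_geometric_of_lt_one hc.θ0.le hc.θ1)
      rwa [tsum_geometric_of_lt_one hc.θ0.le hc.θ1] at h2
    have := mul_le_mul_of_nonneg_left h1 hKA
    linarith

end Pool.Agent.Y290.PL
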