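import Pool.Agent.Y290.PL.Final

/-!
# Normalisation of the counterexample
-/

set_option autoImplicit false

namespace Pool.Agent.Y290.PL

open MeasureTheory Set
open scoped FourierTransform ENNReal ContDiff

theorem avg_smul (c : ℂ) (f : ℝ → ℂ) (a b : ℝ) : avg (fun x => c * f x) a b = c * avg f a b := by
  unfold avg
  rw [intervalIntegral.integral_const_mul, mul_div_assoc]

theorem osc_smul (c : ℂ) (f : ℝ → ℂ) (a b : ℝ) :
    osc (fun x => c * f x) a b = ‖c‖ * osc f a b := by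
  unfold osc
  rw [avg_smul, ← mul_div_assoc, ← intervalIntegral.integral_const_mul]
  congr 2
  funext x
  rw [← mul_sub, norm_mul]

theorem bmo_smul (c : ℂ) (f : ℝ → ℂ) :
    bmo (fun x => c * f x) = ENNReal.ofReal ‖c‖ * bmo f := by
  unfold bmo
  simp_rw [ENNReal.mul_iSup, osc_smul, ENNReal.ofReal_mul (norm_nonneg c)]

theorem HP.smul {g : ℝ → ℂ} {N : ℝ} (h : HP g N) (c : ℂ) : HP (fun x => c * g x) (‖c‖ * N) := by
  obtain ⟨a, h1, h2, h3, h4⟩ := h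
  refine ⟨fun ξ => c * a ξ, h1.const_mul c, fun ξ hξ => by simp only [h2 ξ hξ, mul_zero], ?_, ?_⟩
  · simp_rw [norm_mul]
    rw [integral_const_mul]
    gcongr
  · intro x
    simp only
    rw [h4 x, ← integral_const_mul]
    congr 1
    funext ξ
    rw [mul_assoc]

theorem HM.smul {g : ℝ → ℂ} {N : ℝ} (h : HM g N) (c : ℂ) : HM (fun x => c * g x) (‖c‖ * N) := by
  obtain ⟨a, h1, h2, h3, h4⟩ := h
  refine ⟨fun ξ => c * a ξ, h1.const_mul c, fun ξ hξ => by simp only [h2 ξ hξ, mul_zero], ?_, ?_⟩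
  · simp_rw [norm_mul]
    rw [integral_const_mul]
    gcongr
  · intro x
    simp only
    rw [h4 x, ← integral_const_mul]
    congr 1
    funext ξ
    rw [mul_assoc]

/-- **The final result from the parts, in the normalised form.** -/
theorem final_seq (hHB : S_HB) (hBM : S_BM) (hHC : S_HC) (hFB : S_FB) (hLI : S_LI)
    (hGLUE : S_GLUE) (hLB : S_LB) (hFAR : S_FAR) (hGM : S_GM) : ∃ H : ℝ → ℝ, InG H ∧
      ∃ f g : ℕ → ℝ → ℂ, (∀ k, IsBMOA (f k) ∧ bmo (f k) = 1 ∧ IsProj (f k ∘ H) (g k)) ∧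
        Filter.Tendsto (fun k => bmo (g k)) Filter.atTop (nhds 0) := by
  obtain ⟨χ, hχ, hχ0, hχ1⟩ := exists_bump
  obtain ⟨c, ε₁, hc, hε₁, hLB⟩ := hLB χ hχ hχ1
  obtain ⟨C₀, C₁, hC₁, hGM⟩ := hGM χ hχ hχ0
  obtain ⟨C₂, hC₂, hmain⟩ := main_part hHB hBM hHC hFB hLI hχ
  set ε : ℕ → ℝ := fun k => min ε₁ (1 / (k + 1)) with hε_def
  have hε : ∀ k, 0 < ε k := fun k => lt_min hε₁ (by positivity)
  have hε1 : ∀ k, ε k ≤ ε₁ := fun k => min_le_left _ _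
  have hε2 : ∀ k, ε k ≤ 1 / (k + 1) := fun k => min_le_right _ _
  choose h F G d E hh hrh hF hG hd hE hFn heq hnp hnm hit hdn hEn hhx using fun k => hGM (ε k) (hε k)
  choose K hK hfar using fun j => hFAR (h j) (hh j)
  set X : ℕ → ℝ := pos K C₁ with hX_def
  obtain ⟨H, hHG, hH1, hH2⟩ := hGLUE C₀ h X hh hrh (pos_step' hK hC₁)
  refine ⟨H, hHG, ?_⟩
  have hX2 : ∀ j k, j ≠ k → 2 ≤ |X k - X j| := by
    intro j k hjk
    have h1 := pos_far hK hC₁ hjk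
    have h2 : 0 ≤ K j * C₁ * 2 ^ (j + k) := by have := hK j; positivity
    rw [hX_def]
    linarith
  have hkey : ∀ k : ℕ, ∃ f u : ℝ → ℂ, (IsBMOA f ∧ bmo f = 1 ∧ IsProj (f ∘ H) u) ∧
      bmo u ≤ ENNReal.ofReal (c⁻¹ * (C₂ * (1 / ((k : ℝ) + 1)) + 4 * (1 / 2) ^ k)) := by
    intro k
    obtain ⟨u₀, v₀, N, M, hu₀, hv₀, huv₀, hbu₀⟩ := hmain (ε k) (h k) (F k) (G k) (d k) (E k) (hε k)
      (hh k) (hF k) (hG k) (hd k) (hE k) (heq k) (hnp k) (hnm k) (hdn k) (hEn k) (hhx k)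
    obtain ⟨u₁, v₁, hu₁, hv₁, huv₁⟩ := far_part hFB hHC hh hX2 hH1 hH2 (F k) k (fun j hj => by
      obtain ⟨h1, h2⟩ := hfar j (F k) C₁ (X k - X j) (hF k) (hFn k) (hX2 j k hj)
      exact ⟨h1, h2.trans (far_num (hK j) hC₁ (pos_far hK hC₁ hj))⟩)
    obtain ⟨-, -, hp1, -, -, -, -, -⟩ := hFB.1 (F k) (hF k)
    have hHC' := hHC
    obtain ⟨hc1, hc2, -, hc4, hc5, -, -⟩ := hHC'
    have hp2 := hc4 _ _ (X k) hp1
    have hu2 := hc1 _ _ _ _ (hc4 _ _ (X k) hu₀) hu₁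
    have hv2 := hc2 _ _ _ _ (hc5 _ _ (X k) hv₀) hv₁
    have hu₀' := hHB.1 _ _ (hc4 _ _ (X k) hu₀)
    have hu₁' := hHB.1 _ _ hu₁
    have hdec : ∀ x, Pp (F k) (H x - X k) = (u₀ (x - X k) + u₁ x) + (v₀ (x - X k) + v₁ x) := by
      intro x
      rw [huv₁, huv₀]
      ring
    have h2 : ENNReal.ofReal c ≤ bmo (fun x => Pp (F k) (x - X k)) := by
      rw [hBM.2.2]
      exact hLB (F k) (hF k) ((hit k).trans (hε1 k)) ((hnm k).trans (hε1 k))
    have h3 : bmo (fun x => u₀ (x - X k) + u₁ x) ≤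
        ENNReal.ofReal (C₂ * (1 / ((k : ℝ) + 1)) + 4 * (1 / 2) ^ k) := by
      refine (hBM.1 _ _ hu₀'.1.1.1 hu₁'.1.1.1).trans ?_
      rw [hBM.2.2 u₀ (X k), ENNReal.ofReal_add (by positivity) (by positivity)]
      refine add_le_add (hbu₀.trans (ENNReal.ofReal_le_ofReal
        (mul_le_mul_of_nonneg_left (hε2 k) hC₂)))
        (hu₁'.2.trans (ENNReal.ofReal_le_ofReal (le_of_eq (by ring))))
    -- the norm
    have hfin : bmo (fun x => Pp (F k) (x - X k)) < ⊤ := (hHB.1 _ _ hp2).1.1.2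
    obtain ⟨b, hb⟩ : ∃ b : ℝ, b = (bmo (fun x => Pp (F k) (x - X k))).toReal := ⟨_, rfl⟩
    have hb' : bmo (fun x => Pp (F k) (x - X k)) = ENNReal.ofReal b := by
      rw [hb, ENNReal.ofReal_toReal hfin.ne]
    have hcb : c ≤ b := by
      rw [hb']at h2
      rcases le_or_gt c b with h | h
      · exact h
      · have h4 : b < 0 ∨ 0 ≤ b := lt_or_ge b 0
        rcases h4 with h4 | h4
        · rw [hb] at h4
          exact absurd ENNReal.toReal_nonneg (not_le.2 h4)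
        · exact (ENNReal.ofReal_le_ofReal_iff h4).1 h2
    have hb0 : 0 < b := hc.trans_le hcb
    have hnb : ‖((b⁻¹ : ℝ) : ℂ)‖ = b⁻¹ := by
      rw [Complex.norm_real, Real.norm_eq_abs, abs_of_pos (inv_pos.2 hb0)]
    have hf := hHB.1 _ _ (hp2.smul ((b⁻¹ : ℝ) : ℂ))
    have hu := hHB.1 _ _ (hu2.smul ((b⁻¹ : ℝ) : ℂ))
    have hv := hHB.2 _ _ (hv2.smul ((b⁻¹ : ℝ) : ℂ))
    refine ⟨fun x => ((b⁻¹ : ℝ) : ℂ) * Pp (F k) (x - X k),
      fun x => ((b⁻¹ : ℝ) : ℂ) * (u₀ (x - X k) + u₁ x), ⟨hf.1, ?_, ?_, hu.1, ?_⟩, ?_⟩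
    · rw [bmo_smul, hb', hnb, ← ENNReal.ofReal_mul (inv_pos.2 hb0).le, inv_mul_cancel₀ hb0.ne',
        ENNReal.ofReal_one]
    · have e1 : (fun x => ((b⁻¹ : ℝ) : ℂ) * Pp (F k) (x - X k)) ∘ H =
          fun x => ((b⁻¹ : ℝ) : ℂ) * (u₀ (x - X k) + u₁ x) +
            ((b⁻¹ : ℝ) : ℂ) * (v₀ (x - X k) + v₁ x) := by
        funext x
        rw [Function.comp_apply, hdec x, mul_add]
      rw [e1]
      exact hBM.2.1 _ _ hu.1.1 hv.2.1
    · have e1 : (fun x => starRingEnd ℂ (((fun x => ((b⁻¹ : ℝ) : ℂ) * Pp (F k) (x - X k)) ∘ H) x -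
          ((b⁻¹ : ℝ) : ℂ) * (u₀ (x - X k) + u₁ x))) =
            fun x => starRingEnd ℂ (((b⁻¹ : ℝ) : ℂ) * (v₀ (x - X k) + v₁ x)) := by
        funext x
        congr 1
        rw [Function.comp_apply, hdec x]
        ring
      rw [e1]
      exact hv.1
    · rw [bmo_smul, hnb, ENNReal.ofReal_mul (inv_pos.2 hc).le]
      refine mul_le_mul' (ENNReal.ofReal_le_ofReal ?_) h3
      exact inv_anti₀ hc hcb
  choose f g hfg hbg using hkey
  refine ⟨f, g, hfg, ?_⟩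
  have hlim : Filter.Tendsto (fun k : ℕ => ENNReal.ofReal
      (c⁻¹ * (C₂ * (1 / ((k : ℝ) + 1)) + 4 * (1 / 2 : ℝ) ^ k)))
      Filter.atTop (nhds (ENNReal.ofReal (c⁻¹ * (C₂ * 0 + 4 * 0)))) :=
    ENNReal.tendsto_ofReal (((tendsto_one_div_add_atTop_nhds_zero_nat.const_mul C₂).add
      ((tendsto_pow_atTop_nhds_zero_of_lt_one (by norm_num) (by norm_num)).const_mul 4)).const_mul
        c⁻¹)
  rw [mul_zero, mul_zero, add_zero, mul_zero, ENNReal.ofReal_zero] at hlim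
  exact tendsto_of_tendsto_of_tendsto_of_le_of_le tendsto_const_nhds hlim (fun _ => zero_le)
    hbg

/-- a normalised counterexample contradicts the property -/
theorem not_PropL {H : ℝ → ℝ} {f g : ℕ → ℝ → ℂ}
    (h1 : ∀ k, IsBMOA (f k) ∧ bmo (f k) = 1 ∧ IsProj (f k ∘ H) (g k))
    (h2 : Filter.Tendsto (fun k => bmo (g k)) Filter.atTop (nhds 0)) : ¬ PropL H := by
  rintro ⟨c, hc, hL⟩
  have h3 : ∀ k, ENNReal.ofReal c ≤ bmo (g k) := by
    intro k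
    have := hL (f k) (g k) (h1 k).1 (h1 k).2.2
    rwa [(h1 k).2.1, mul_one] at this
  have h4 : ENNReal.ofReal c ≤ 0 := ge_of_tendsto' h2 h3
  exact not_le.2 (ENNReal.ofReal_pos.2 hc) h4

end Pool.Agent.Y290.PL
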